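import Pool.Agent.J4H98.TL.Cur

/-!
# Cubic covers: Lemma S
-/

set_option autoImplicit false

open FF

namespace Pool.Agent.J4H98.TL

open Pool.Agent.J4H13.TL Pool.Agent.J4H13.BC
open Pool.Agent.J4H13.LA Pool.Agent.W602.GT Pool.Agent.W603.LV

variable {K : Type} [Field K] [Algebra ℂ K]

/-- the contradiction for 2-forms -/
lemma no_two {s U : K} (hsU : AlgebraicIndependent ℂ ![s, U]) {L₀ : IntermediateField ℂ K}
    (hs : s ∈ L₀) (hU : U ∈ L₀) {S₁ S₂ : Finset ℂ} (hd : Disjoint S₁ S₂)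
    (h4 : 4 ≤ 2 * S₁.card + S₂.card) {y : K} (hN : NoForms L₀ y)
    (hy : y ^ 3 = (∏ a ∈ S₁, (s - algebraMap ℂ K a)) * (∏ a ∈ S₂, (s - algebraMap ℂ K a)) ^ 2 *
      (U * (1 - U))) : False := by
  have hst : Transcendental ℂ s := hsU.transcendental 0
  have hUt : Transcendental ℂ U := hsU.transcendental 1
  have hA := prod_ne hst S₂
  have hB := prod_ne hst S₁
  have hU0 : U ≠ 0 := by
    have := sub_const_ne hUt 0
    rwa [map_zero, sub_zero] at this
  have hU1 : 1 - U ≠ 0 := by
    have := sub_const_ne hUt 1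
    rw [map_one] at this
    intro h
    apply this
    linear_combination -h
  have hy0 : y ≠ 0 := by
    rintro rfl
    rw [zero_pow three_ne_zero] at hy
    exact (mul_ne_zero (mul_ne_zero hB (pow_ne_zero 2 hA)) (mul_ne_zero hU0 hU1)) hy.symm
  obtain ⟨D, h0x, h0y, h1x, h1y⟩ := exists_ders hsU
  have h1 := hN.two_two s hs U hU _ (prod_lin_mem hs S₂) (fun P _ D₁ D₂ h₁ h₂ =>
    t_R2 hsU hd h4 hy P h₁ h₂) (D 0) (D 1)
  unfold wedge at h1
  rw [h0x, h0y, h1x, h1y, one_mul, zero_mul, sub_zero, one_mul] at h1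
  exact div_ne_zero hA (pow_ne_zero 2 hy0) h1

theorem ls_small {s U : K} (hsU : AlgebraicIndependent ℂ ![s, U]) {L₀ : IntermediateField ℂ K}
    (hU : U ∈ L₀) {S₁ S₂ : Finset ℂ} (hd : Disjoint S₁ S₂)
    (h4 : 2 * S₁.card + S₂.card ≤ 3) {y : K} (hN : NoForms L₀ y)
    (hy : y ^ 3 = (∏ a ∈ S₁, (s - algebraMap ℂ K a)) * (∏ a ∈ S₂, (s - algebraMap ℂ K a)) ^ 2 *
      (U * (1 - U))) : Good s U y := by
  classical
  have hst : Transcendental ℂ s := hsU.transcendental 0
  have hUt : Transcendental ℂ U := hsU.transcendental 1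
  have hU0 : U ≠ 0 := by
    have := sub_const_ne hUt 0
    rwa [map_zero, sub_zero] at this
  have hU1 : 1 - U ≠ 0 := by
    have := sub_const_ne hUt 1
    rw [map_one] at this
    intro h
    apply this
    linear_combination -h
  have hU01 : U * (1 - U) ≠ 0 := mul_ne_zero hU0 hU1
  have hcases : (S₁.card = 0 ∧ S₂.card = 0) ∨ (S₁.card = 1 ∧ S₂.card = 0) ∨
      (S₁.card = 0 ∧ S₂.card = 1) ∨ (S₁.card = 1 ∧ S₂.card = 1) ∨
      (S₁.card = 0 ∧ S₂.card = 2) ∨ (S₁.card = 0 ∧ S₂.card = 3) := by omega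
  rcases hcases with ⟨h1, h2⟩ | ⟨h1, h2⟩ | ⟨h1, h2⟩ | ⟨h1, h2⟩ | ⟨h1, h2⟩ | ⟨h1, h2⟩
  · -- (0, 0)
    exfalso
    rw [Finset.card_eq_zero] at h1 h2
    rw [h1, h2, Finset.prod_empty, one_pow, mul_one, one_mul] at hy
    have hy0 : y ≠ 0 := by
      rintro rfl
      rw [zero_pow three_ne_zero] at hy
      exact hU01 hy.symm
    obtain ⟨D, h0x, h0y, h1x, h1y⟩ := exists_ders hsU
    have h5 := hN.one_two U hU 1 (one_mem _) (fun P _ D hD => by
      have h6 := t_R1 hUt (S₁ := {0, 1}) (S₂ := ∅) (by simp) (by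
        rw [Finset.card_pair zero_ne_one]
        simp) (y := -y) (by
          rw [Finset.prod_empty, one_pow, mul_one, Finset.prod_pair zero_ne_one, map_zero,
            sub_zero, map_one]
          linear_combination -hy) P hD
      rw [Finset.prod_empty, neg_sq] at h6
      exact h6) (D 1)
    rw [h1y, one_mul] at h5
    exact div_ne_zero one_ne_zero (pow_ne_zero 2 hy0) h5
  · -- (1, 0)
    obtain ⟨a, ha⟩ := Finset.card_eq_one.1 h1
    rw [Finset.card_eq_zero] at h2
    rw [ha, h2, Finset.prod_empty, one_pow, mul_one, Finset.prod_singleton] at hy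
    refine good_of (t := U) (r := y) hsU fun L hu hy' => ⟨?_, hu, hy'⟩
    have : s = y ^ 3 / (U * (1 - U)) + algebraMap ℂ K a := by
      rw [hy]
      field_simp
      ring
    rw [this]
    exact add_mem (div_mem (pow_mem hy' 3) (mul_mem hu (sub_mem (one_mem L) hu)))
      (L.algebraMap_mem a)
  · -- (0, 1)
    obtain ⟨a, ha⟩ := Finset.card_eq_one.1 h2
    rw [Finset.card_eq_zero] at h1
    rw [ha, h1, Finset.prod_empty, one_mul, Finset.prod_singleton] at hy
    have hsa := sub_const_ne hst a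
    obtain ⟨z, hz⟩ : ∃ z, z = y / (s - algebraMap ℂ K a) := ⟨_, rfl⟩
    have hz3 : z ^ 3 * (s - algebraMap ℂ K a) = U * (1 - U) := by
      rw [hz, div_pow, hy]
      field_simp
    have hyz : y = z * (s - algebraMap ℂ K a) := by
      rw [hz]
      field_simp
    have hz0 : z ^ 3 ≠ 0 := by
      intro h
      rw [h, zero_mul] at hz3
      exact hU01 hz3.symm
    refine good_of (t := U) (r := z) hsU fun L hu hz' => ?_
    have hsL : s ∈ L := by
      have : s = U * (1 - U) / z ^ 3 + algebraMap ℂ K a := by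
        rw [← hz3, mul_div_cancel_left₀ _ hz0]
        ring
      rw [this]
      exact add_mem (div_mem (mul_mem hu (sub_mem (one_mem L) hu)) (pow_mem hz' 3))
        (L.algebraMap_mem a)
    refine ⟨hsL, hu, ?_⟩
    rw [hyz]
    exact mul_mem hz' (sub_mem hsL (L.algebraMap_mem a))
  · -- (1, 1)
    obtain ⟨a, ha⟩ := Finset.card_eq_one.1 h1
    obtain ⟨b, hb⟩ := Finset.card_eq_one.1 h2
    have hab : a ≠ b := by
      rintro rfl
      rw [ha, hb] at hd
      simp at hd
    rw [ha, hb, Finset.prod_singleton, Finset.prod_singleton] at hy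
    have hsa := sub_const_ne hst a
    have hsb := sub_const_ne hst b
    obtain ⟨z, hz⟩ : ∃ z, z = y / (s - algebraMap ℂ K b) := ⟨_, rfl⟩
    have hz3 : z ^ 3 * (s - algebraMap ℂ K b) = (s - algebraMap ℂ K a) * (U * (1 - U)) := by
      rw [hz, div_pow, hy]
      field_simp
    have hyz : y = z * (s - algebraMap ℂ K b) := by
      rw [hz]
      field_simp
    have hne : z ^ 3 - U * (1 - U) ≠ 0 := by
      intro h
      have h6 : algebraMap ℂ K (a - b) * (U * (1 - U)) = 0 := by
        rw [map_sub]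
        linear_combination hz3 - (s - algebraMap ℂ K b) * h
      rcases mul_eq_zero.1 h6 with h7 | h7
      · exact hab (sub_eq_zero.1 ((map_eq_zero _).1 h7))
      · exact hU01 h7
    refine good_of (t := U) (r := z) hsU fun L hu hz' => ?_
    have hUL : U * (1 - U) ∈ L := mul_mem hu (sub_mem (one_mem L) hu)
    have hsL : s ∈ L := by
      have : s = (algebraMap ℂ K b * z ^ 3 - algebraMap ℂ K a * (U * (1 - U))) /
          (z ^ 3 - U * (1 - U)) := by
        rw [eq_div_iff hne]
        linear_combination hz3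
      rw [this]
      exact div_mem (sub_mem (mul_mem (L.algebraMap_mem b) (pow_mem hz' 3))
        (mul_mem (L.algebraMap_mem a) hUL)) (sub_mem (pow_mem hz' 3) hUL)
    refine ⟨hsL, hu, ?_⟩
    rw [hyz]
    exact mul_mem hz' (sub_mem hsL (L.algebraMap_mem b))
  · -- (0, 2)
    obtain ⟨a, b, hab, hS⟩ := Finset.card_eq_two.1 h2
    rw [Finset.card_eq_zero] at h1
    rw [hS, h1, Finset.prod_empty, one_mul, Finset.prod_pair hab] at hy
    have hsa := sub_const_ne hst a
    have hsb := sub_const_ne hst b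
    obtain ⟨z, hz⟩ : ∃ z, z = y / ((s - algebraMap ℂ K a) * (s - algebraMap ℂ K b)) := ⟨_, rfl⟩
    obtain ⟨τ, hτ⟩ : ∃ τ, τ = U / (s - algebraMap ℂ K a) := ⟨_, rfl⟩
    have hUτ : U = τ * (s - algebraMap ℂ K a) := by
      rw [hτ]
      field_simp
    have hτ0 : τ ≠ 0 := by
      rw [hτ]
      exact div_ne_zero hU0 hsa
    have hyz : y = z * ((s - algebraMap ℂ K a) * (s - algebraMap ℂ K b)) := by
      rw [hz]
      field_simp
    have hz3 : z ^ 3 * (s - algebraMap ℂ K b) = τ * (1 - τ * (s - algebraMap ℂ K a)) := by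
      rw [← hUτ, hz, div_pow, hy, hτ]
      field_simp
    have hne : z ^ 3 + τ ^ 2 ≠ 0 := by
      intro h
      have h6 : τ * (1 + τ * algebraMap ℂ K (a - b)) = 0 := by
        rw [map_sub]
        linear_combination (s - algebraMap ℂ K b) * h - hz3
      have h7 := (mul_eq_zero.1 h6).resolve_left hτ0
      have h8 : algebraMap ℂ K (a - b) ≠ 0 := (map_ne_zero _).2 (sub_ne_zero.2 hab)
      have h9 : τ = algebraMap ℂ K (-(a - b)⁻¹) := by
        rw [map_neg, map_inv₀]
        field_simp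
        linear_combination h7
      obtain ⟨D, h0x, h0y, h1x, h1y⟩ := exists_ders hsU
      have h10 := congrArg (D 1) hUτ
      rw [h1y, h9, (D 1).leibniz, Dsub, h1x, (D 1).map_algebraMap, smul_zero, smul_zero,
        add_zero] at h10
      exact one_ne_zero h10
    refine good_of (t := z) (r := τ) hsU fun L hz' hτ' => ?_
    have hsL : s ∈ L := by
      have : s = (algebraMap ℂ K b * z ^ 3 + τ + algebraMap ℂ K a * τ ^ 2) /
          (z ^ 3 + τ ^ 2) := by
        rw [eq_div_iff hne]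
        linear_combination hz3
      rw [this]
      exact div_mem (add_mem (add_mem (mul_mem (L.algebraMap_mem b) (pow_mem hz' 3)) hτ')
        (mul_mem (L.algebraMap_mem a) (pow_mem hτ' 2))) (add_mem (pow_mem hz' 3) (pow_mem hτ' 2))
    refine ⟨hsL, ?_, ?_⟩
    · rw [hUτ]
      exact mul_mem hτ' (sub_mem hsL (L.algebraMap_mem a))
    · rw [hyz]
      exact mul_mem hz' (mul_mem (sub_mem hsL (L.algebraMap_mem a))
        (sub_mem hsL (L.algebraMap_mem b)))
  · -- (0, 3)
    obtain ⟨a, b, c, hab, hac, hbc, hS⟩ := Finset.card_eq_three.1 h2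
    rw [Finset.card_eq_zero] at h1
    have hprod : ∏ x ∈ S₂, (s - algebraMap ℂ K x) =
        (s - algebraMap ℂ K a) * ((s - algebraMap ℂ K b) * (s - algebraMap ℂ K c)) := by
      rw [hS, Finset.prod_insert (by simp [hab, hac]), Finset.prod_pair hbc]
    rw [h1, Finset.prod_empty, one_mul, hprod] at hy
    have hsa := sub_const_ne hst a
    have hsb := sub_const_ne hst b
    have hsc := sub_const_ne hst c
    obtain ⟨z, hz⟩ : ∃ z, z = y / ((s - algebraMap ℂ K a) * (s - algebraMap ℂ K b)) := ⟨_, rfl⟩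
    obtain ⟨τ, hτ⟩ : ∃ τ, τ = U * (s - algebraMap ℂ K c) / (s - algebraMap ℂ K a) := ⟨_, rfl⟩
    have hUτ : U * (s - algebraMap ℂ K c) = τ * (s - algebraMap ℂ K a) := by
      rw [hτ]
      field_simp
    have hτ0 : τ ≠ 0 := by
      rw [hτ]
      exact div_ne_zero (mul_ne_zero hU0 hsc) hsa
    have hyz : y = z * ((s - algebraMap ℂ K a) * (s - algebraMap ℂ K b)) := by
      rw [hz]
      field_simp
    have hz3 : z ^ 3 * (s - algebraMap ℂ K b) =
        τ * ((s - algebraMap ℂ K c) - τ * (s - algebraMap ℂ K a)) := by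
      rw [← hUτ, hz, div_pow, hy, hτ]
      field_simp
    have hne : z ^ 3 - τ + τ ^ 2 ≠ 0 := by
      intro h
      have h6 : τ * (algebraMap ℂ K (b - c) + τ * algebraMap ℂ K (a - b)) = 0 := by
        rw [map_sub, map_sub]
        linear_combination (s - algebraMap ℂ K b) * h - hz3
      have h7 := (mul_eq_zero.1 h6).resolve_left hτ0
      have h8 : algebraMap ℂ K (a - b) ≠ 0 := (map_ne_zero _).2 (sub_ne_zero.2 hab)
      have h9 : τ = algebraMap ℂ K (-((b - c) / (a - b))) := by
        rw [map_neg, map_div₀]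
        field_simp
        linear_combination h7
      obtain ⟨D, h0x, h0y, h1x, h1y⟩ := exists_ders hsU
      have h10 := congrArg (D 1) hUτ
      rw [(D 1).leibniz, h1y, h9, (D 1).leibniz, Dsub, Dsub, h1x, (D 1).map_algebraMap, smul_zero,
        smul_zero, smul_zero, add_zero, zero_add, smul_eq_mul, mul_one] at h10
      exact hsc h10
    refine good_of (t := z) (r := τ) hsU fun L hz' hτ' => ?_
    have hsL : s ∈ L := by
      have : s = (algebraMap ℂ K b * z ^ 3 - algebraMap ℂ K c * τ + algebraMap ℂ K a * τ ^ 2) /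
          (z ^ 3 - τ + τ ^ 2) := by
        rw [eq_div_iff hne]
        linear_combination hz3
      rw [this]
      exact div_mem (add_mem (sub_mem (mul_mem (L.algebraMap_mem b) (pow_mem hz' 3))
        (mul_mem (L.algebraMap_mem c) hτ'))
        (mul_mem (L.algebraMap_mem a) (pow_mem hτ' 2)))
        (add_mem (sub_mem (pow_mem hz' 3) hτ') (pow_mem hτ' 2))
    refine ⟨hsL, ?_, ?_⟩
    · have : U = τ * (s - algebraMap ℂ K a) / (s - algebraMap ℂ K c) := by
        rw [← hUτ]
        field_simp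
      rw [this]
      exact div_mem (mul_mem hτ' (sub_mem hsL (L.algebraMap_mem a)))
        (sub_mem hsL (L.algebraMap_mem c))
    · rw [hyz]
      exact mul_mem hz' (mul_mem (sub_mem hsL (L.algebraMap_mem a))
        (sub_mem hsL (L.algebraMap_mem b)))

theorem t_LS : S_LS := by
  intro K _ _ s U hsU L₀ hs hU f hf y hN hy
  have hst : Transcendental ℂ s := hsU.transcendental 0
  obtain ⟨S₁, S₂, g, hd, hg, hfg⟩ := t_RED hf
  obtain ⟨G, hG⟩ : ∃ G, G = Polynomial.aeval s g := ⟨_, rfl⟩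
  have hG0 : G ≠ 0 := hG ▸ aeval_ne hst hg
  have hGL : ∀ L : IntermediateField ℂ K, s ∈ L → G ∈ L := fun L h => hG ▸ aeval_mem h g
  obtain ⟨z, hz⟩ : ∃ z, z = G⁻¹ * y := ⟨_, rfl⟩
  have hyz : y = G * z := by
    rw [hz]
    field_simp
  have hz3 : z ^ 3 = (∏ a ∈ S₁, (s - algebraMap ℂ K a)) *
      (∏ a ∈ S₂, (s - algebraMap ℂ K a)) ^ 2 * (U * (1 - U)) := by
    rw [hz, mul_pow, hy, hfg, map_mul, map_mul, map_pow, map_pow, aeval_prod_lin,
      aeval_prod_lin, ← hG]
    field_simp
  have hNz : NoForms L₀ z := by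
    rw [hz]
    exact hN.mul (inv_mem (hGL L₀ hs))
  have hgood : Good s U z := by
    by_cases h4 : 4 ≤ 2 * S₁.card + S₂.card
    · exact (no_two hsU hs hU hd h4 hNz hz3).elim
    · exact ls_small hsU hU hd (by omega) hNz hz3
  rw [hyz]
  exact good_mul hgood fun L h _ => hGL L h

end Pool.Agent.J4H98.TL
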