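import Pool.Agent.J4H13.TL.Jobs

/-!
# Removing cubes from a polynomial
-/

set_option autoImplicit false

namespace Pool.Agent.J4H98.TL

open Pool.Agent.J4H13.TL Polynomial

theorem t_RED : S_RED := by
  classical
  intro f hf
  obtain ⟨c, hc⟩ := IsAlgClosed.exists_pow_nat_eq f.leadingCoeff (n := 3) three_pos
  have hc0 : c ≠ 0 := by
    rintro rfl
    rw [zero_pow three_ne_zero] at hc
    exact hf (leadingCoeff_eq_zero.1 hc.symm)
  obtain ⟨R, hR⟩ : ∃ R, R = f.roots.toFinset := ⟨_, rfl⟩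
  obtain ⟨m, hm⟩ : ∃ m : ℂ → ℕ, m = fun a => f.roots.count a := ⟨_, rfl⟩
  have hfac : f = C f.leadingCoeff * ∏ a ∈ R, (X - C a) ^ m a := by
    have h1 := C_leadingCoeff_mul_prod_multiset_X_sub_C
      (IsAlgClosed.card_roots_eq_natDegree (p := f))
    conv_lhs => rw [← h1]
    rw [Finset.prod_multiset_map_count, ← hR, hm]
  refine ⟨R.filter fun a => m a % 3 = 1, R.filter fun a => m a % 3 = 2,
    C c * ∏ a ∈ R, (X - C a) ^ (m a / 3), ?_, ?_, ?_⟩
  · rw [Finset.disjoint_filter]
    intro a _ h1 h2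
    omega
  · refine mul_ne_zero (C_ne_zero.2 hc0) (Finset.prod_ne_zero_iff.2 fun a _ => ?_)
    exact pow_ne_zero _ (X_sub_C_ne_zero a)
  · rw [mul_pow, ← map_pow, hc, ← Finset.prod_pow, ← Finset.prod_pow, Finset.prod_filter,
      Finset.prod_filter, ← Finset.prod_mul_distrib, mul_assoc, ← Finset.prod_mul_distrib]
    conv_lhs => rw [hfac]
    congr 1
    refine Finset.prod_congr rfl fun a _ => ?_
    have h3 : m a % 3 = 0 ∨ m a % 3 = 1 ∨ m a % 3 = 2 := by omega
    rcases h3 with h | h | h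
    · rw [if_neg (by omega), if_neg (by omega), mul_one, mul_one, ← pow_mul]
      congr 1
      omega
    · rw [if_pos h, if_neg (by omega), mul_one, ← pow_mul, ← pow_succ]
      congr 1
      omega
    · rw [if_neg (by omega), if_pos h, one_mul, ← pow_mul, ← pow_add]
      congr 1
      omega

end Pool.Agent.J4H98.TL
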