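import Pool.Agent.J4H98.TL.R1
import Pool.Agent.J4H98.TL.Red

/-!
# Cubic covers of curves
-/

set_option autoImplicit false

open FF

namespace Pool.Agent.J4H98.TL

open Pool.Agent.J4H13.TL Pool.Agent.J4H13.BC
open Pool.Agent.J4H13.LA Pool.Agent.W602.GT Pool.Agent.W603.LV

variable {K : Type} [Field K] [Algebra ℂ K]

lemma good_of {s u v t r : K} (hsu : AlgebraicIndependent ℂ ![s, u])
    (h : ∀ L : IntermediateField ℂ K, t ∈ L → r ∈ L → s ∈ L ∧ u ∈ L ∧ v ∈ L) : Good s u v := by
  have ht : t ∈ IntermediateField.adjoin ℂ {t, r} :=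
    IntermediateField.subset_adjoin _ _ (by simp)
  have hr : r ∈ IntermediateField.adjoin ℂ {t, r} :=
    IntermediateField.subset_adjoin _ _ (by simp)
  obtain ⟨h1, h2, h3⟩ := h _ ht hr
  exact ⟨_, h1, h2, h3, 2, embed_of_two hsu h1 h2⟩

lemma aeval_mem {s : K} {L : IntermediateField ℂ K} (hs : s ∈ L) (g : Polynomial ℂ) :
    Polynomial.aeval s g ∈ L := by
  rw [Polynomial.aeval_eq_sum_range]
  exact sum_mem fun i _ => L.smul_mem (pow_mem hs i)

lemma good_mul {s u v g : K} (h : Good s u v)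
    (hg : ∀ L : IntermediateField ℂ K, s ∈ L → u ∈ L → g ∈ L) : Good s u (g * v) := by
  obtain ⟨L, hs, hu, hv, hm⟩ := h
  exact ⟨L, hs, hu, mul_mem (hg L hs hu) hv, hm⟩

lemma aeval_prod_lin (s : K) (S : Finset ℂ) :
    Polynomial.aeval s (∏ a ∈ S, (Polynomial.X - Polynomial.C a)) =
      ∏ a ∈ S, (s - algebraMap ℂ K a) := by
  rw [map_prod]
  refine Finset.prod_congr rfl fun a _ => ?_
  rw [map_sub, Polynomial.aeval_X, Polynomial.aeval_C]

lemma prod_lin_mem {s : K} {L : IntermediateField ℂ K} (hs : s ∈ L) (S : Finset ℂ) :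
    ∏ a ∈ S, (s - algebraMap ℂ K a) ∈ L :=
  prod_mem fun a _ => sub_mem hs (L.algebraMap_mem a)

lemma aeval_ne {s : K} (hs : Transcendental ℂ s) {f : Polynomial ℂ} (hf : f ≠ 0) :
    Polynomial.aeval s f ≠ 0 := fun h => hs ⟨f, hf, h⟩

/-- the cube roots of unity are constants -/
lemma root_of_unity {y : K} (h : y ^ 3 = 1) : ∃ c : ℂ, y = algebraMap ℂ K c := by
  obtain ⟨z, hz⟩ := IsAlgClosed.exists_root (Polynomial.X ^ 2 + Polynomial.X + 1 : Polynomial ℂ) (by
    have : (Polynomial.X ^ 2 + Polynomial.X + 1 : Polynomial ℂ).degree = 2 := by compute_degree!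
    rw [this]
    decide)
  have hz' : z ^ 2 + z + 1 = 0 := by
    simpa [Polynomial.IsRoot] using hz
  have hzK : (algebraMap ℂ K z) ^ 2 + algebraMap ℂ K z + 1 = 0 := by
    rw [← map_pow, ← map_add, ← map_one (algebraMap ℂ K), ← map_add, hz', map_zero]
  have h1 : (y - 1) * ((y - algebraMap ℂ K z) * (y + 1 + algebraMap ℂ K z)) = 0 := by
    linear_combination h + (1 - y) * hzK
  rcases mul_eq_zero.1 h1 with h2 | h2
  · exact ⟨1, by rw [map_one]; exact sub_eq_zero.1 h2⟩
  · rcases mul_eq_zero.1 h2 with h3 | h3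
    · exact ⟨z, sub_eq_zero.1 h3⟩
    · refine ⟨-1 - z, ?_⟩
      rw [map_sub, map_neg, map_one]
      linear_combination h3

/-- the first contradiction -/
lemma no_one {s u : K} (hsu : AlgebraicIndependent ℂ ![s, u]) {L₀ : IntermediateField ℂ K}
    (hs : s ∈ L₀) {S₁ S₂ : Finset ℂ} (hd : Disjoint S₁ S₂) (h4 : 4 ≤ 2 * S₁.card + S₂.card)
    {y : K} (hN : NoForms L₀ y)
    (hy : y ^ 3 = (∏ a ∈ S₁, (s - algebraMap ℂ K a)) * (∏ a ∈ S₂, (s - algebraMap ℂ K a)) ^ 2) :
    False := by
  have hst : Transcendental ℂ s := hsu.transcendental 0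
  have hA := prod_ne hst S₂
  have hB := prod_ne hst S₁
  have hy0 : y ≠ 0 := by
    rintro rfl
    rw [zero_pow three_ne_zero] at hy
    exact (mul_ne_zero hB (pow_ne_zero 2 hA)) hy.symm
  obtain ⟨D, h0x, h0y, h1x, h1y⟩ := exists_ders hsu
  have h1 := hN.one_two s hs _ (prod_lin_mem hs S₂) (fun P _ D hD =>
    t_R1 hst hd h4 hy P hD) (D 0)
  rw [h0x, one_mul] at h1
  exact div_ne_zero hA (pow_ne_zero 2 hy0) h1

/-- the cases of small degree -/
lemma cur_small {s u : K} (hsu : AlgebraicIndependent ℂ ![s, u]) {S₁ S₂ : Finset ℂ}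
    (hd : Disjoint S₁ S₂) (h1 : S₁.card ≤ 1) (h2 : S₂.card ≤ 1) {y : K}
    (hy : y ^ 3 = (∏ a ∈ S₁, (s - algebraMap ℂ K a)) * (∏ a ∈ S₂, (s - algebraMap ℂ K a)) ^ 2) :
    Good s u y := by
  have hst : Transcendental ℂ s := hsu.transcendental 0
  rcases (by omega : S₁.card = 0 ∨ S₁.card = 1) with h1 | h1
  · rw [Finset.card_eq_zero] at h1
    rw [h1, Finset.prod_empty, one_mul] at hy
    rcases (by omega : S₂.card = 0 ∨ S₂.card = 1) with h2 | h2
    · rw [Finset.card_eq_zero] at h2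
      rw [h2, Finset.prod_empty, one_pow] at hy
      obtain ⟨c, hc⟩ := root_of_unity hy
      refine good_of (t := s) (r := u) hsu fun L hs hu => ⟨hs, hu, ?_⟩
      rw [hc]
      exact L.algebraMap_mem c
    · obtain ⟨a, ha⟩ := Finset.card_eq_one.1 h2
      rw [ha, Finset.prod_singleton] at hy
      have hsa := sub_const_ne hst a
      have hy0 : y ≠ 0 := by
        rintro rfl
        rw [zero_pow three_ne_zero] at hy
        exact pow_ne_zero 2 hsa hy.symm
      obtain ⟨τ, hτ⟩ : ∃ τ, τ = (s - algebraMap ℂ K a) / y := ⟨_, rfl⟩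
      have h3 : τ ^ 3 = s - algebraMap ℂ K a := by
        rw [hτ, div_pow, hy]
        field_simp
      have h4 : y = τ ^ 2 := by
        have h5 : τ * y = s - algebraMap ℂ K a := by
          rw [hτ]
          field_simp
        have hτ0 : τ ≠ 0 := by
          rw [hτ]
          exact div_ne_zero hsa hy0
        apply mul_left_cancel₀ hτ0
        rw [h5, ← h3]
        ring
      refine good_of (t := τ) (r := u) hsu fun L ht hu => ⟨?_, hu, ?_⟩
      · have : s = τ ^ 3 + algebraMap ℂ K a := by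
          rw [h3]
          ring
        rw [this]
        exact add_mem (pow_mem ht 3) (L.algebraMap_mem a)
      · rw [h4]
        exact pow_mem ht 2
  · obtain ⟨a, ha⟩ := Finset.card_eq_one.1 h1
    rw [ha, Finset.prod_singleton] at hy
    have hsa := sub_const_ne hst a
    rcases (by omega : S₂.card = 0 ∨ S₂.card = 1) with h2 | h2
    · rw [Finset.card_eq_zero] at h2
      rw [h2, Finset.prod_empty, one_pow, mul_one] at hy
      refine good_of (t := y) (r := u) hsu fun L ht hu => ⟨?_, hu, ht⟩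
      have : s = y ^ 3 + algebraMap ℂ K a := by
        rw [hy]
        ring
      rw [this]
      exact add_mem (pow_mem ht 3) (L.algebraMap_mem a)
    · obtain ⟨b, hb⟩ := Finset.card_eq_one.1 h2
      rw [hb, Finset.prod_singleton] at hy
      have hsb := sub_const_ne hst b
      have hab : a ≠ b := by
        rintro rfl
        rw [ha, hb] at hd
        simp at hd
      obtain ⟨τ, hτ⟩ : ∃ τ, τ = y / (s - algebraMap ℂ K b) := ⟨_, rfl⟩
      have h3 : τ ^ 3 * (s - algebraMap ℂ K b) = s - algebraMap ℂ K a := by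
        rw [hτ, div_pow, hy]
        field_simp
      have h4 : y = τ * (s - algebraMap ℂ K b) := by
        rw [hτ]
        field_simp
      have h5 : τ ^ 3 - 1 ≠ 0 := by
        intro h
        have h6 : algebraMap ℂ K (a - b) = 0 := by
          rw [map_sub]
          linear_combination h3 - (s - algebraMap ℂ K b) * h
        exact hab (sub_eq_zero.1 ((map_eq_zero _).1 h6))
      refine good_of (t := τ) (r := u) hsu fun L ht hu => ?_
      have hsL : s ∈ L := by
        have : s = (algebraMap ℂ K b * τ ^ 3 - algebraMap ℂ K a) / (τ ^ 3 - 1) := by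
          rw [eq_div_iff h5]
          linear_combination h3
        rw [this]
        exact div_mem (sub_mem (mul_mem (L.algebraMap_mem b) (pow_mem ht 3))
          (L.algebraMap_mem a)) (sub_mem (pow_mem ht 3) (one_mem L))
      refine ⟨hsL, hu, ?_⟩
      rw [h4]
      exact mul_mem ht (sub_mem hsL (L.algebraMap_mem b))

theorem t_CUR : S_CUR := by
  intro K _ _ s u hsu L₀ hs hu f hf y hN hy
  have hst : Transcendental ℂ s := hsu.transcendental 0
  obtain ⟨S₁, S₂, g, hd, hg, hfg⟩ := t_RED hf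
  obtain ⟨G, hG⟩ : ∃ G, G = Polynomial.aeval s g := ⟨_, rfl⟩
  have hG0 : G ≠ 0 := hG ▸ aeval_ne hst hg
  have hGL : ∀ L : IntermediateField ℂ K, s ∈ L → G ∈ L := fun L h => hG ▸ aeval_mem h g
  obtain ⟨z, hz⟩ : ∃ z, z = G⁻¹ * y := ⟨_, rfl⟩
  have hyz : y = G * z := by
    rw [hz]
    field_simp
  have hz3 : z ^ 3 = (∏ a ∈ S₁, (s - algebraMap ℂ K a)) *
      (∏ a ∈ S₂, (s - algebraMap ℂ K a)) ^ 2 := by
    rw [hz, mul_pow, hy, hfg, map_mul, map_mul, map_pow, map_pow, aeval_prod_lin,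
      aeval_prod_lin, ← hG]
    field_simp
  have hNz : NoForms L₀ z := by
    rw [hz]
    exact hN.mul (inv_mem (hGL L₀ hs))
  have hgood : Good s u z := by
    by_cases h4 : 4 ≤ 2 * S₁.card + S₂.card
    · exact (no_one hsu hs hd h4 hNz hz3).elim
    by_cases h4' : 4 ≤ 2 * S₂.card + S₁.card
    · exfalso
      have hA := prod_ne hst S₂
      have hB := prod_ne hst S₁
      have hz0 : z ≠ 0 := by
        rintro rfl
        rw [zero_pow three_ne_zero] at hz3
        exact (mul_ne_zero hB (pow_ne_zero 2 hA)) hz3.symm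
      have hz3L : z ^ 3 ∈ L₀ := by
        rw [hz3]
        exact mul_mem (prod_lin_mem hs _) (pow_mem (prod_lin_mem hs _) 2)
      refine no_one hsu hs hd.symm h4' (y := ((∏ a ∈ S₁, (s - algebraMap ℂ K a)) *
        (∏ a ∈ S₂, (s - algebraMap ℂ K a))) * z⁻¹)
        ((hNz.inv hz3L).mul (mul_mem (prod_lin_mem hs _) (prod_lin_mem hs _))) ?_
      rw [mul_pow, inv_pow, hz3]
      field_simp
    · exact cur_small hsu hd (by omega) (by omega) hz3
  rw [hyz]
  exact good_mul hgood fun L h _ => hGL L h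

end Pool.Agent.J4H98.TL
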