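import Pool.Agent.J4H13.TL.Jobs

/-!
# Regularity of forms on cyclic cubic covers
-/

set_option autoImplicit false

open FF

namespace Pool.Agent.J4H98.TL

open Pool.Agent.J4H13.TL
open Pool.Agent.J4H13.LA Pool.Agent.W602.GT Pool.Agent.W603.LV

variable {K : Type} [Field K] [Algebra ℂ K]

lemma sub_const_ne {s : K} (hs : Transcendental ℂ s) (a : ℂ) : s - algebraMap ℂ K a ≠ 0 := by
  intro h
  apply hs
  rw [sub_eq_zero.1 h]
  exact isAlgebraic_algebraMap a

lemma Dsub (D : Derivation ℂ K K) (s : K) (a : ℂ) : D (s - algebraMap ℂ K a) = D s := by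
  rw [map_sub, D.map_algebraMap, sub_zero]

/-- the order of a product of linear factors -/
lemma ord_lin {s : K} (hs : Transcendental ℂ s) (P : Place ℂ K) (S : Finset ℂ) :
    P.ord (∏ a ∈ S, (s - algebraMap ℂ K a)) = ∑ a ∈ S, P.ord (s - algebraMap ℂ K a) :=
  ord_prod P S _ fun a _ => sub_const_ne hs a

/-- two linear factors do not vanish at the same time -/
lemma one_zero {s : K} (hs : Transcendental ℂ s) (P : Place ℂ K) {a b : ℂ} (hab : a ≠ b)
    (ha : 0 < P.ord (s - algebraMap ℂ K a)) : P.ord (s - algebraMap ℂ K b) = 0 := by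
  have h1 : s - algebraMap ℂ K b = algebraMap ℂ K (a - b) + (s - algebraMap ℂ K a) := by
    rw [map_sub]
    ring
  have h2 : algebraMap ℂ K (a - b) ≠ 0 := (map_ne_zero _).2 (sub_ne_zero.2 hab)
  have h3 : P.ord (algebraMap ℂ K (a - b)) = 0 := P.ord_const (sub_ne_zero.2 hab)
  rw [h1, (P.ord_add_eq h2 (sub_const_ne hs a) (by rw [h3]; exact ha)).2, h3]

/-- at a pole all linear factors have the same order -/
lemma ord_pole {s : K} (hs : Transcendental ℂ s) (P : Place ℂ K) (h : P.ord s < 0) (a : ℂ) :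
    P.ord (s - algebraMap ℂ K a) = P.ord s := by
  by_cases ha : a = 0
  · rw [ha, map_zero, sub_zero]
  have hs0 : s ≠ 0 := by
    have := sub_const_ne hs 0
    rwa [map_zero, sub_zero] at this
  have h3 : P.ord (algebraMap ℂ K (-a)) = 0 := P.ord_const (neg_ne_zero.2 ha)
  rw [sub_eq_add_neg, ← map_neg]
  exact (P.ord_add_eq hs0 ((map_ne_zero _).2 (neg_ne_zero.2 ha)) (by rw [h3]; exact h)).2

/-- **The contribution of a function to the order of a form.** -/
theorem contr {s : K} (hs : Transcendental ℂ s) {S₁ S₂ : Finset ℂ} (hd : Disjoint S₁ S₂)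
    (h4 : 4 ≤ 2 * S₁.card + S₂.card) (P : Place ℂ K) :
    (Ge P 0 s ∧ 2 * P.ord (∏ a ∈ S₁, (s - algebraMap ℂ K a)) +
      P.ord (∏ a ∈ S₂, (s - algebraMap ℂ K a)) = 0) ∨
    ∃ c : ℂ, 1 ≤ 3 * P.ord (s - algebraMap ℂ K c) -
      (2 * P.ord (∏ a ∈ S₁, (s - algebraMap ℂ K a)) +
        P.ord (∏ a ∈ S₂, (s - algebraMap ℂ K a))) := by
  classical
  rw [ord_lin hs, ord_lin hs]
  by_cases hpole : P.ord s < 0
  · right
    refine ⟨0, ?_⟩
    rw [ord_pole hs P hpole, Finset.sum_congr rfl fun a _ => ord_pole hs P hpole a,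
      Finset.sum_congr rfl fun a _ => ord_pole hs P hpole a, Finset.sum_const, Finset.sum_const,
      nsmul_eq_mul, nsmul_eq_mul]
    have h5 : (4 : ℤ) ≤ 2 * (S₁.card : ℤ) + (S₂.card : ℤ) := by exact_mod_cast h4
    nlinarith
  · have hreg : Ge P 0 s := Or.inr (not_lt.1 hpole)
    have hnn : ∀ a : ℂ, 0 ≤ P.ord (s - algebraMap ℂ K a) := fun a =>
      (hreg.sub (Ge.const a)).resolve_left (sub_const_ne hs a)
    by_cases hall : ∃ c ∈ S₁ ∪ S₂, 0 < P.ord (s - algebraMap ℂ K c)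
    · obtain ⟨c, hc, hpos⟩ := hall
      right
      refine ⟨c, ?_⟩
      have hoth : ∀ b, b ≠ c → P.ord (s - algebraMap ℂ K b) = 0 := fun b hb =>
        one_zero hs P (Ne.symm hb) hpos
      rw [Finset.mem_union] at hc
      rcases hc with hc | hc
      · have hc2 : c ∉ S₂ := Finset.disjoint_left.1 hd hc
        rw [Finset.sum_eq_single_of_mem c hc fun b _ hb => hoth b hb,
          Finset.sum_eq_zero fun b hb => hoth b fun h => hc2 (h ▸ hb)]
        omega
      · have hc2 : c ∉ S₁ := Finset.disjoint_right.1 hd hc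
        rw [Finset.sum_eq_zero fun b hb => hoth b fun h => hc2 (h ▸ hb),
          Finset.sum_eq_single_of_mem c hc fun b _ hb => hoth b hb]
        omega
    · push Not at hall
      left
      refine ⟨hreg, ?_⟩
      rw [Finset.sum_eq_zero fun b hb => le_antisymm
          (hall b (Finset.mem_union_left _ hb)) (hnn b),
        Finset.sum_eq_zero fun b hb => le_antisymm (hall b (Finset.mem_union_right _ hb)) (hnn b)]
      rfl

lemma prod_ne {s : K} (hs : Transcendental ℂ s) (S : Finset ℂ) :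
    ∏ a ∈ S, (s - algebraMap ℂ K a) ≠ 0 :=
  Finset.prod_ne_zero_iff.2 fun a _ => sub_const_ne hs a

theorem t_R1 : S_R1 := by
  intro K _ _ s hs S₁ S₂ hd h4 y hy P D hD
  have hB := prod_ne hs S₁
  have hA := prod_ne hs S₂
  obtain ⟨B, hBe⟩ : ∃ B, B = ∏ a ∈ S₁, (s - algebraMap ℂ K a) := ⟨_, rfl⟩
  obtain ⟨A, hAe⟩ : ∃ A, A = ∏ a ∈ S₂, (s - algebraMap ℂ K a) := ⟨_, rfl⟩
  have hc := contr hs hd h4 P
  rw [← hBe, ← hAe] at hc
  rw [← hBe, ← hAe] at hy
  rw [← hBe] at hB
  rw [← hAe] at hA ⊢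
  have hy0 : y ≠ 0 := by
    rintro rfl
    rw [zero_pow three_ne_zero] at hy
    exact (mul_ne_zero hB (pow_ne_zero 2 hA)) hy.symm
  have hord : 3 * P.ord y = P.ord B + 2 * P.ord A := by
    have := congrArg P.ord hy
    rw [P.ord_pow, P.ord_mul hB (pow_ne_zero 2 hA), P.ord_pow] at this
    exact_mod_cast this
  have h1 : Ge P (P.ord A - 2 * P.ord y) (A / y ^ 2) := by
    right
    rw [P.ord_div hA (pow_ne_zero 2 hy0), P.ord_pow]
    push_cast
    exact le_refl _
  rcases hc with ⟨hreg, h0⟩ | ⟨c, hc⟩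
  · have h2 : Ge P 0 (D s) := hD s hreg
    exact (h2.mul h1).mono (by omega)
  · have h2 : Ge P (P.ord (s - algebraMap ℂ K c) - 1) (D s) := by
      rw [← Dsub D s c]
      exact ge_D hD (Or.inr le_rfl)
    exact (h2.mul h1).mono (by omega)

theorem t_R2 : S_R2 := by
  intro K _ _ s U hsU S₁ S₂ hd h4 y hy P D₁ D₂ h₁ h₂
  have hs : Transcendental ℂ s := hsU.transcendental 0
  have hU : Transcendental ℂ U := hsU.transcendental 1
  have hB := prod_ne hs S₁
  have hA := prod_ne hs S₂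
  obtain ⟨B, hBe⟩ : ∃ B, B = ∏ a ∈ S₁, (s - algebraMap ℂ K a) := ⟨_, rfl⟩
  obtain ⟨A, hAe⟩ : ∃ A, A = ∏ a ∈ S₂, (s - algebraMap ℂ K a) := ⟨_, rfl⟩
  have hc := contr hs hd h4 P
  rw [← hBe, ← hAe] at hc
  rw [← hBe, ← hAe] at hy
  rw [← hBe] at hB
  rw [← hAe] at hA ⊢
  -- the contribution of `U`
  have hcU := contr hU (S₁ := {0, 1}) (S₂ := ∅) (by simp) (by
    rw [Finset.card_pair zero_ne_one]
    simp) P
  rw [Finset.prod_empty, P.ord_one, Finset.prod_pair zero_ne_one, map_zero, sub_zero, map_one]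
    at hcU
  have hU0 : U ≠ 0 := by
    have := sub_const_ne hU 0
    rwa [map_zero, sub_zero] at this
  have hU1 : U - 1 ≠ 0 := by
    have := sub_const_ne hU 1
    rwa [map_one] at this
  obtain ⟨R, hR⟩ : ∃ R, R = U * (U - 1) := ⟨_, rfl⟩
  have hR0 : R ≠ 0 := hR ▸ mul_ne_zero hU0 hU1
  rw [← hR] at hcU
  have hy' : y ^ 3 = B * A ^ 2 * (-R) := by
    rw [hy, hR]
    ring
  have hnR : -R ≠ 0 := neg_ne_zero.2 hR0
  have hy0 : y ≠ 0 := by
    rintro rfl
    rw [zero_pow three_ne_zero] at hy'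
    exact (mul_ne_zero (mul_ne_zero hB (pow_ne_zero 2 hA)) hnR) hy'.symm
  have hord : 3 * P.ord y = P.ord B + 2 * P.ord A + P.ord R := by
    have := congrArg P.ord hy'
    rw [P.ord_pow, P.ord_mul (mul_ne_zero hB (pow_ne_zero 2 hA)) hnR, P.ord_neg,
      P.ord_mul hB (pow_ne_zero 2 hA), P.ord_pow] at this
    exact_mod_cast this
  have h1 : Ge P (P.ord A - 2 * P.ord y) (A / y ^ 2) := by
    right
    rw [P.ord_div hA (pow_ne_zero 2 hy0), P.ord_pow]
    push_cast
    exact le_refl _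
  have hwd : ∀ c d : ℂ, wedge D₁ D₂ s U =
      wedge D₁ D₂ (s - algebraMap ℂ K c) (U - algebraMap ℂ K d) := by
    intro c d
    unfold wedge
    rw [Dsub, Dsub, Dsub, Dsub]
  rcases hc with ⟨hreg, h0⟩ | ⟨c, hc⟩
  · rcases hcU with ⟨hregU, h0U⟩ | ⟨d, hdU⟩
    · have h2 : Ge P 0 (wedge D₁ D₂ s U) := by
        unfold wedge
        have g1 := Ge.mul (show Ge P 0 _ from h₁ s hreg) (show Ge P 0 _ from h₂ U hregU)
        have g2 := Ge.mul (show Ge P 0 _ from h₂ s hreg) (show Ge P 0 _ from h₁ U hregU)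
        exact (g1.mono (by omega)).sub (g2.mono (by omega))
      exact (h2.mul h1).mono (by omega)
    · have h2 : Ge P (P.ord (U - algebraMap ℂ K d) - 1) (wedge D₁ D₂ s U) := by
        unfold wedge
        rw [← Dsub D₂ U d, ← Dsub D₁ U d]
        have g1 := Ge.mul (show Ge P 0 _ from h₁ s hreg)
          (ge_D (f := U - algebraMap ℂ K d) h₂ (Or.inr le_rfl))
        have g2 := Ge.mul (show Ge P 0 _ from h₂ s hreg)
          (ge_D (f := U - algebraMap ℂ K d) h₁ (Or.inr le_rfl))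
        exact (g1.mono (by omega)).sub (g2.mono (by omega))
      exact (h2.mul h1).mono (by omega)
  · rcases hcU with ⟨hregU, h0U⟩ | ⟨d, hdU⟩
    · have h2 : Ge P (P.ord (s - algebraMap ℂ K c) - 1) (wedge D₁ D₂ s U) := by
        unfold wedge
        rw [← Dsub D₁ s c, ← Dsub D₂ s c]
        have g1 := Ge.mul (ge_D (f := s - algebraMap ℂ K c) h₁ (Or.inr le_rfl))
          (show Ge P 0 _ from h₂ U hregU)
        have g2 := Ge.mul (ge_D (f := s - algebraMap ℂ K c) h₂ (Or.inr le_rfl))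
          (show Ge P 0 _ from h₁ U hregU)
        exact (g1.mono (by omega)).sub (g2.mono (by omega))
      exact (h2.mul h1).mono (by omega)
    · have h2 := ge_wedge h₁ h₂ (sub_const_ne hs c) (sub_const_ne hU d)
      rw [← hwd c d] at h2
      exact (h2.mul h1).mono (by omega)

end Pool.Agent.J4H98.TL
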